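import Pool.Agent.W805.LR.Stm6
import Pool.Agent.W32.LR.TR

/-!
# PD2-CN: variance bound for Lipschitz functions of stirring
-/

set_option autoImplicit false

namespace Pool.Agent.W588.PD.CN

open Finset Equiv Filter Topology NormedSpace
open Pool.Agent.W805.LR Pool.Agent.W32.LR

section

variable {V : Type} [Fintype V] [DecidableEq V]

lemma gen_apply (J : V → V → ℝ) (F : Perm V → ℝ) (g : Perm V) :
    gen J F g = ∑ x, ∑ y, J x y / 2 * F (g * swap x y) := by
  simp only [gen, _root_.sum_apply, Finset.sum_apply,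
    _root_.smul_apply, Pi.smul_apply, smul_eq_mul, Rt_apply]

/-- total rate -/
noncomputable def tot (J : V → V → ℝ) : ℝ := ∑ x, ∑ y, J x y / 2

omit [DecidableEq V] in
lemma tot_nonneg (J : V → V → ℝ) (hJ : ∀ x y, 0 ≤ J x y) : 0 ≤ tot J :=
  Finset.sum_nonneg fun x _ => Finset.sum_nonneg fun y _ => div_nonneg (hJ x y) (by norm_num)

lemma gen_const (J : V → V → ℝ) (c : ℝ) (g : Perm V) :
    gen J (fun _ => c) g = tot J * c := by
  rw [gen_apply, tot, Finset.sum_mul]
  exact Finset.sum_congr rfl fun x _ => by rw [Finset.sum_mul]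

/-- one step of the discrete chain, `u = t / M` -/
noncomputable def qq (J : V → V → ℝ) (u : ℝ) : (Perm V → ℝ) →L[ℝ] (Perm V → ℝ) :=
  (1 + u * tot J)⁻¹ • (1 + u • gen J)

lemma qq_apply (J : V → V → ℝ) (u : ℝ) (F : Perm V → ℝ) (g : Perm V) :
    qq J u F g = (1 + u * tot J)⁻¹ * (F g + u * ∑ x, ∑ y, J x y / 2 * F (g * swap x y)) := by
  rw [← gen_apply]
  rfl

lemma qq_mono (J : V → V → ℝ) (hJ : ∀ x y, 0 ≤ J x y) (u : ℝ) (hu : 0 ≤ u)
    (F G : Perm V → ℝ) (h : ∀ g, F g ≤ G g) (g : Perm V) : qq J u F g ≤ qq J u G g := by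
  rw [qq_apply, qq_apply]
  have h0 := tot_nonneg J hJ
  have h1 : 0 ≤ (1 + u * tot J)⁻¹ := by positivity
  apply mul_le_mul_of_nonneg_left _ h1
  apply add_le_add (h g)
  apply mul_le_mul_of_nonneg_left _ hu
  exact Finset.sum_le_sum fun x _ => Finset.sum_le_sum fun y _ =>
    mul_le_mul_of_nonneg_left (h _) (div_nonneg (hJ x y) (by norm_num))

lemma qq_const (J : V → V → ℝ) (hJ : ∀ x y, 0 ≤ J x y) (u : ℝ) (hu : 0 ≤ u) (c : ℝ)
    (g : Perm V) : qq J u (fun _ => c) g = c := by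
  have h0 := tot_nonneg J hJ
  have h1 : (1 + u * tot J) ≠ 0 := by positivity
  rw [qq_apply]
  have : ∑ x, ∑ y, J x y / 2 * c = tot J * c := by
    rw [tot, Finset.sum_mul]
    exact Finset.sum_congr rfl fun x _ => by rw [Finset.sum_mul]
  rw [this]
  field_simp

/-- the class of functions with the Lipschitz property -/
def Lip (D : ℝ) (F : Perm V → ℝ) : Prop :=
  ∀ (a b : Perm V) (x y : V), |F (a * swap x y * b) - F (a * b)| ≤ D

lemma Lip.qq {J : V → V → ℝ} (hJ : ∀ x y, 0 ≤ J x y) {u : ℝ} (hu : 0 ≤ u) {D : ℝ}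
    {F : Perm V → ℝ} (h : Lip D F) : Lip D (qq J u F) := by
  intro a b x y
  rw [qq_apply, qq_apply, ← mul_sub]
  have h0 := tot_nonneg J hJ
  have hc : 0 < 1 + u * tot J := by positivity
  have e : F (a * swap x y * b) + u * ∑ z, ∑ w, J z w / 2 * F (a * swap x y * b * swap z w) -
      (F (a * b) + u * ∑ z, ∑ w, J z w / 2 * F (a * b * swap z w)) =
      (F (a * swap x y * b) - F (a * b)) +
        u * ∑ z, ∑ w, J z w / 2 * (F (a * swap x y * (b * swap z w)) - F (a * (b * swap z w))) := by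
    simp only [mul_sub, Finset.sum_sub_distrib, ← mul_assoc]
    ring
  rw [e, abs_mul, abs_of_pos (inv_pos.2 hc)]
  have h1 : |∑ z, ∑ w, J z w / 2 * (F (a * swap x y * (b * swap z w)) - F (a * (b * swap z w)))|
      ≤ tot J * D := by
    refine (Finset.abs_sum_le_sum_abs _ _).trans ?_
    rw [tot, Finset.sum_mul]
    refine Finset.sum_le_sum fun z _ => ?_
    refine (Finset.abs_sum_le_sum_abs _ _).trans ?_
    rw [Finset.sum_mul]
    refine Finset.sum_le_sum fun w _ => ?_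
    have hz : 0 ≤ J z w / 2 := div_nonneg (hJ z w) (by norm_num)
    rw [abs_mul, abs_of_nonneg hz]
    exact mul_le_mul_of_nonneg_left (h _ _ _ _) hz
  have h2 : |(F (a * swap x y * b) - F (a * b)) +
        u * ∑ z, ∑ w, J z w / 2 * (F (a * swap x y * (b * swap z w)) - F (a * (b * swap z w)))|
      ≤ (1 + u * tot J) * D := by
    refine (abs_add_le _ _).trans ?_
    rw [abs_mul, abs_of_nonneg hu]
    have := mul_le_mul_of_nonneg_left h1 hu
    have := h a b x y
    nlinarith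
  calc (1 + u * tot J)⁻¹ * _ ≤ (1 + u * tot J)⁻¹ * ((1 + u * tot J) * D) :=
        mul_le_mul_of_nonneg_left h2 (inv_pos.2 hc).le
    _ = D := by field_simp

lemma Lip.pow {J : V → V → ℝ} (hJ : ∀ x y, 0 ≤ J x y) {u : ℝ} (hu : 0 ≤ u) {D : ℝ}
    {F : Perm V → ℝ} (h : Lip D F) (m : ℕ) : Lip D ((CN.qq J u ^ m) F) := by
  induction m with
  | zero => simpa using h
  | succ m ih =>
    rw [pow_succ']
    exact ih.qq hJ hu

/-- the variance created in one step -/
lemma one_step {J : V → V → ℝ} (hJ : ∀ x y, 0 ≤ J x y) {u : ℝ} (hu : 0 ≤ u) {D : ℝ}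
    {G : Perm V → ℝ} (h : Lip D G) (g : Perm V) :
    qq J u (fun k => G k ^ 2) g - (qq J u G g) ^ 2 ≤ u * tot J * D ^ 2 := by
  have h0 := tot_nonneg J hJ
  have hc : 0 < 1 + u * tot J := by positivity
  have key : qq J u (fun k => G k ^ 2) g - (qq J u G g) ^ 2 ≤
      (1 + u * tot J)⁻¹ * (u * ∑ x, ∑ y, J x y / 2 * (G (g * swap x y) - G g) ^ 2) := by
    have e1 : ∑ x, ∑ y, J x y / 2 * (G (g * swap x y) - G g) ^ 2 =
        ∑ x, ∑ y, J x y / 2 * G (g * swap x y) ^ 2 -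
          2 * G g * (∑ x, ∑ y, J x y / 2 * G (g * swap x y)) + tot J * G g ^ 2 := by
      rw [tot, Finset.mul_sum, Finset.sum_mul, ← Finset.sum_sub_distrib, ← Finset.sum_add_distrib]
      refine Finset.sum_congr rfl fun x _ => ?_
      rw [Finset.mul_sum, Finset.sum_mul, ← Finset.sum_sub_distrib, ← Finset.sum_add_distrib]
      refine Finset.sum_congr rfl fun y _ => ?_
      ring
    rw [qq_apply, qq_apply, e1]
    set A := ∑ x, ∑ y, J x y / 2 * G (g * swap x y) ^ 2
    set B := ∑ x, ∑ y, J x y / 2 * G (g * swap x y)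
    set R := tot J
    set c := 1 + u * R with hcdef
    have hcc : c⁻¹ * c = 1 := inv_mul_cancel₀ hc.ne'
    -- `q(G^2) - (qG)^2 = q((G-a)^2) - (qG - a)^2`
    have h2 : 0 ≤ (c⁻¹ * (G g + u * B) - G g) ^ 2 := sq_nonneg _
    have h3 : c⁻¹ * (G g ^ 2 + u * A) - (c⁻¹ * (G g + u * B)) ^ 2 +
        (c⁻¹ * (G g + u * B) - G g) ^ 2 =
        c⁻¹ * (u * (A - 2 * G g * B + R * G g ^ 2)) := by
      have h4 : c⁻¹ * (G g ^ 2 + u * A) - (c⁻¹ * (G g + u * B)) ^ 2 +
        (c⁻¹ * (G g + u * B) - G g) ^ 2 = c⁻¹ * (G g ^ 2 + u * A) -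
          2 * c⁻¹ * (G g + u * B) * G g + G g ^ 2 := by ring
      rw [h4]
      linear_combination (-(G g ^ 2)) * hcc + (c⁻¹ * G g ^ 2) * hcdef
    linarith
  refine key.trans ?_
  have h1 : ∑ x, ∑ y, J x y / 2 * (G (g * swap x y) - G g) ^ 2 ≤ tot J * D ^ 2 := by
    rw [tot, Finset.sum_mul]
    refine Finset.sum_le_sum fun x _ => ?_
    rw [Finset.sum_mul]
    refine Finset.sum_le_sum fun y _ => ?_
    apply mul_le_mul_of_nonneg_left _ (div_nonneg (hJ x y) (by norm_num))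
    have := h g 1 x y
    rw [mul_one, mul_one] at this
    exact sq_le_sq' (by linarith [(abs_le.1 this).1]) (abs_le.1 this).2
  have h2 : (1 + u * tot J)⁻¹ ≤ 1 := inv_le_one_of_one_le₀ (by nlinarith [mul_nonneg hu h0])
  have h3 : 0 ≤ u * (tot J * D ^ 2) := by positivity
  calc (1 + u * tot J)⁻¹ * (u * ∑ x, ∑ y, J x y / 2 * (G (g * swap x y) - G g) ^ 2)
      ≤ (1 + u * tot J)⁻¹ * (u * (tot J * D ^ 2)) :=
        mul_le_mul_of_nonneg_left (mul_le_mul_of_nonneg_left h1 hu) (inv_pos.2 hc).le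
    _ ≤ 1 * (u * (tot J * D ^ 2)) := mul_le_mul_of_nonneg_right h2 h3
    _ = _ := by ring

lemma iter {J : V → V → ℝ} (hJ : ∀ x y, 0 ≤ J x y) {u : ℝ} (hu : 0 ≤ u) {D : ℝ}
    {F : Perm V → ℝ} (h : Lip D F) (m : ℕ) (g : Perm V) :
    (qq J u ^ m) (fun k => F k ^ 2) g - ((qq J u ^ m) F g) ^ 2 ≤ m * (u * tot J * D ^ 2) := by
  induction m generalizing g with
  | zero => simp
  | succ m ih =>
    have e1 : ∀ X : Perm V → ℝ, (qq J u ^ (m + 1)) X = qq J u ((qq J u ^ m) X) := by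
      intro X
      rw [pow_succ']
      rfl
    rw [e1, e1]
    set G := (qq J u ^ m) F with hG
    have hL : Lip D G := h.pow hJ hu m
    have h1 : qq J u ((qq J u ^ m) (fun k => F k ^ 2)) g ≤
        qq J u (fun k => G k ^ 2 + m * (u * tot J * D ^ 2)) g := by
      apply qq_mono J hJ u hu
      intro k
      have := ih k
      linarith
    have h2 : qq J u (fun k => G k ^ 2 + m * (u * tot J * D ^ 2)) g =
        qq J u (fun k => G k ^ 2) g + m * (u * tot J * D ^ 2) := by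
      have : (fun k => G k ^ 2 + m * (u * tot J * D ^ 2)) =
          (fun k => G k ^ 2) + (fun _ : Perm V => m * (u * tot J * D ^ 2)) := rfl
      rw [this, map_add, Pi.add_apply, qq_const J hJ u hu]
    have h3 := one_step hJ hu hL g
    rw [Nat.cast_succ]
    linarith

lemma tends (J : V → V → ℝ) (t : ℝ) (X : Perm V → ℝ) :
    Tendsto (fun M : ℕ => ((1 + (t / M) • gen J) ^ M) X 1) atTop
      (𝓝 ((exp (t • gen J)) X 1)) := by
  have h1 := tendsto_list_prod_pow [t • gen J]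
  have h2 := ((evl X).continuous.tendsto _).comp h1
  rw [evl_apply, List.sum_singleton] at h2
  refine h2.congr fun M => ?_
  rw [Function.comp_apply, evl_apply, List.map_singleton, List.prod_singleton, smul_smul]
  rw [div_eq_inv_mul]

lemma pow_qq (J : V → V → ℝ) (hJ : ∀ x y, 0 ≤ J x y) (u : ℝ) (hu : 0 ≤ u) (m : ℕ)
    (X : Perm V → ℝ) (g : Perm V) :
    ((1 + u • gen J) ^ m) X g = (1 + u * tot J) ^ m * (qq J u ^ m) X g := by
  have h0 := tot_nonneg J hJ
  have hc : (1 + u * tot J) ≠ 0 := by positivity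
  have : (1 + u • gen J) = (1 + u * tot J) • qq J u := by
    rw [qq, smul_smul, mul_inv_cancel₀ hc, one_smul]
  rw [this, smul_pow]
  rfl

theorem conc (J : V → V → ℝ) (t D : ℝ) (F : Perm V → ℝ) (hJ : ∀ x y, 0 ≤ J x y) (ht : 0 ≤ t)
    (hF : Lip D F) :
    (∑ g, stirMass J t g * F g ^ 2) * (∑ g, stirMass J t g) -
      (∑ g, stirMass J t g * F g) ^ 2 ≤
    t * (∑ x, ∑ y, J x y / 2) * D ^ 2 * (∑ g, stirMass J t g) ^ 2 := by
  have e0 : ∑ g, stirMass J t g = ∑ g, stirMass J t g * (fun _ : Perm V => (1 : ℝ)) g := by simp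
  rw [e0]
  rw [sum_stirMass J t (fun g => F g ^ 2), sum_stirMass J t F,
    sum_stirMass J t (fun _ => (1 : ℝ))]
  change _ ≤ t * tot J * D ^ 2 * _
  have l1 := tends J t (fun g => F g ^ 2)
  have l2 := tends J t F
  have l3 := tends J t (fun _ => (1 : ℝ))
  refine le_of_tendsto_of_tendsto ((l1.mul l3).sub (l2.pow 2))
    (tendsto_const_nhds.mul (l3.pow 2)) ?_
  filter_upwards [eventually_gt_atTop 0] with M hM
  have hM' : (0 : ℝ) < M := by exact_mod_cast hM
  have hu : 0 ≤ t / M := by positivity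
  rw [pow_qq J hJ _ hu, pow_qq J hJ _ hu, pow_qq J hJ _ hu]
  have hone : (qq J (t / M) ^ M) (fun _ => (1 : ℝ)) 1 = 1 := by
    have : ∀ (m : ℕ) (g : Perm V), (qq J (t / M) ^ m) (fun _ => (1 : ℝ)) g = 1 := by
      intro m
      induction m with
      | zero => intro g; simp
      | succ m ih =>
        intro g
        rw [pow_succ']
        change qq J (t / M) ((qq J (t / M) ^ m) (fun _ => (1 : ℝ))) g = 1
        have : (qq J (t / M) ^ m) (fun _ => (1 : ℝ)) = fun _ => 1 := funext ih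
        rw [this]
        exact qq_const J hJ _ hu 1 g
    exact this M 1
  rw [hone]
  have h1 := iter hJ hu hF M 1
  have h2 : (M : ℝ) * (t / M * tot J * D ^ 2) = t * tot J * D ^ 2 := by field_simp
  rw [h2] at h1
  have h3 : 0 ≤ ((1 + t / M * tot J) ^ M) ^ 2 := sq_nonneg _
  have h4 := mul_le_mul_of_nonneg_left h1 h3
  nlinarith [h4]

end

/-- PD2-CN. -/
theorem main : Pool.Agent.W805.PD.S_conc := by
  intro V _ _ J t D F hJ ht hF
  exact conc J t D F hJ ht hF

end Pool.Agent.W588.PD.CN
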