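import Pool.Agent.W805.LR.Stm5

/-!
# PD-DU: pairs with lonely points do not matter
-/

set_option autoImplicit false

namespace Pool.Agent.W588.PD

open Finset Equiv
open Pool.Agent.W805.PD

section

variable {V : Type} [Fintype V] [DecidableEq V]

theorem avgM_congr {E : Finset V} {F G : Perm V → ℝ} (h : ∀ α ∈ matchings E, F α = G α) :
    avgM E F = avgM E G := by
  unfold avgM
  rw [Finset.sum_congr rfl h]

theorem avgM_const {E : Finset V} (h : (matchings E).Nonempty) (c : ℝ) :
    avgM E (fun _ => c) = c := by
  unfold avgM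
  rw [Finset.sum_const, nsmul_eq_mul]
  have : ((matchings E).card : ℝ) ≠ 0 := by
    exact_mod_cast (Finset.card_pos.2 h).ne'
  field_simp

theorem mem_matchings {E : Finset V} {α : Perm V} :
    α ∈ matchings E ↔ α * α = 1 ∧ α.support = E := by
  simp [matchings]

theorem matchings_apply_apply {E : Finset V} {α : Perm V} (h : α ∈ matchings E) (x : V) :
    α (α x) = x := by
  have := (mem_matchings.1 h).1
  have h2 := congrArg (fun g : Perm V => g x) this
  simpa using h2

theorem matchings_notMem {E : Finset V} {α : Perm V} (h : α ∈ matchings E) {x : V} (hx : x ∉ E) :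
    α x = x := by
  rw [← (mem_matchings.1 h).2] at hx
  simpa using hx

theorem matchings_ne {E : Finset V} {α : Perm V} (h : α ∈ matchings E) {x : V} (hx : x ∈ E) :
    α x ≠ x := by
  rw [← (mem_matchings.1 h).2] at hx
  simpa using hx

theorem matchings_mem {E : Finset V} {α : Perm V} (h : α ∈ matchings E) {x : V} :
    α x ∈ E ↔ x ∈ E := by
  rw [← (mem_matchings.1 h).2]
  simp

theorem even_card_E1 {E D : Finset V} {α : Perm V} (h : α ∈ matchings E) :
    Even ((E \ D).filter fun x => α x ∉ D).card := by
  have h1 : ∑ x ∈ ((E \ D).filter fun x => α x ∉ D), (1 : ZMod 2) = 0 := by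
    apply Finset.sum_involution (fun x _ => α x)
    · intro a ha; decide
    · intro a ha _
      simp only [Finset.mem_filter, Finset.mem_sdiff] at ha
      exact matchings_ne h ha.1.1
    · intro a ha
      simp only [Finset.mem_filter, Finset.mem_sdiff] at ha ⊢
      refine ⟨⟨(matchings_mem h).2 ha.1.1, ha.2⟩, ?_⟩
      rw [matchings_apply_apply h]
      exact ha.1.2
    · intro a ha
      exact matchings_apply_apply h a
  rw [Finset.sum_const, nsmul_eq_mul, mul_one] at h1
  exact (ZMod.natCast_eq_zero_iff_even).1 h1

theorem tr_rem (htr : S_tr) (h : Perm V) (a : V) (A : Finset V) (ha : a ∉ A) :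
    tr (rem h a) A = tr h A := by
  obtain ⟨-, -, -, h4, -, -, h7, h8, -⟩ := htr V
  have e1 : tr h univ = h := h4 h univ (fun x hx => absurd (mem_univ x) hx)
  have e2 : tr h (univ.erase a) = rem h a := by rw [h7, e1]
  rw [← e2]
  apply h8
  intro x hx
  rw [Finset.mem_erase]
  exact ⟨fun h' => ha (h' ▸ hx), mem_univ x⟩

omit [Fintype V] in
theorem rem_fix {h : Perm V} {a x : V} (hx : h x = x) : rem h a x = x := by
  unfold rem
  rw [Perm.mul_apply, hx]
  by_cases h1 : x = a
  · subst h1
    rw [hx]; simp
  · by_cases h2 : x = h a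
    · exfalso; apply h1
      apply h.injective
      rw [hx]; exact h2
    · exact swap_apply_of_ne_of_ne h1 h2

omit [Fintype V] in
theorem rem_self (h : Perm V) (a : V) : rem h a a = a := by
  unfold rem
  rw [Perm.mul_apply]
  simp

/-- The key step: a pair `{e, s}` with `e` lonely. -/
theorem step_tr (htr : S_tr) (ρ : Perm V) (E S : Finset V) (hES : Disjoint E S)
    (hfix : ∀ x, x ∉ E → x ∉ S → ρ x = x) {e s : V} (he : e ∈ E) (hs : s ∈ E.erase e)
    (hρe : ρ e = e) {α : Perm V} (hα : α ∈ matchings ((E.erase e).erase s)) :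
    tr (swap e s * α * ρ) S = tr (α * rem ρ s) S := by
  obtain ⟨-, -, -, h4, -, h6, h7, h8, -⟩ := htr V
  have hsE : s ∈ E := (Finset.mem_erase.1 hs).2
  have hse : s ≠ e := (Finset.mem_erase.1 hs).1
  have heS : e ∉ S := fun h => (Finset.disjoint_left.1 hES) he h
  have hsS : s ∉ S := fun h => (Finset.disjoint_left.1 hES) hsE h
  have hcomm : swap e s * α = α * swap e s := by
    have hd : Perm.Disjoint (swap e s) α := by
      intro x
      by_cases hx : x ∈ (E.erase e).erase s
      · left
        simp only [Finset.mem_erase] at hx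
        exact swap_apply_of_ne_of_ne hx.2.1 hx.1
      · right
        exact matchings_notMem hα hx
    exact hd.commute.eq
  set A := (E.erase e).erase s ∪ S with hA
  have hαA : ∀ x, x ∉ A → α x = x := by
    intro x hx
    apply matchings_notMem hα
    intro h; exact hx (Finset.mem_union_left _ h)
  have hAeq : A = ((E ∪ S).erase e).erase s := by
    ext x
    simp only [hA, Finset.mem_union, Finset.mem_erase]
    constructor
    · rintro (h | h)
      · exact ⟨h.1, h.2.1, Or.inl h.2.2⟩
      · exact ⟨fun h' => hsS (h' ▸ h), fun h' => heS (h' ▸ h), Or.inr h⟩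
    · rintro ⟨h1, h2, h3 | h3⟩
      · exact Or.inl ⟨h1, h2, h3⟩
      · exact Or.inr h3
  have hSA : S ⊆ A := Finset.subset_union_right
  have htr1 : tr (swap e s * ρ) A = rem ρ s := by
    rw [hAeq, h7, h7]
    rw [h4 (swap e s * ρ) (E ∪ S)]
    · have : rem (swap e s * ρ) e = ρ := by
        unfold rem
        rw [Perm.mul_apply, hρe, swap_apply_left, ← mul_assoc, swap_mul_self, one_mul]
      rw [this]
    · intro x hx
      rw [Finset.mem_union, not_or] at hx
      rw [Perm.mul_apply, hfix x hx.1 hx.2]
      apply swap_apply_of_ne_of_ne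
      · intro h; exact hx.1 (h ▸ he)
      · intro h; exact hx.1 (h ▸ hsE)
  rw [hcomm, mul_assoc, ← h8 (α * (swap e s * ρ)) S A hSA, h6 _ _ _ hαA, htr1]

theorem E1_step (E D : Finset V) {e s : V} (he : e ∈ D) (hs : s ∈ E.erase e)
    {α : Perm V} (hα : α ∈ matchings ((E.erase e).erase s)) :
    ((E \ D).filter fun x => (swap e s * α) x ∉ D) =
      (((E.erase e).erase s \ (D.erase e).erase s).filter fun x => α x ∉ (D.erase e).erase s) := by
  have hsE : s ∈ E := (Finset.mem_erase.1 hs).2
  have hse : s ≠ e := (Finset.mem_erase.1 hs).1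
  ext x
  rw [Finset.mem_filter, Finset.mem_filter, Finset.mem_sdiff, Finset.mem_sdiff, Perm.mul_apply]
  by_cases hx : x ∈ (E.erase e).erase s
  · have hαx : α x ∈ (E.erase e).erase s := (matchings_mem hα).2 hx
    have h1 : swap e s (α x) = α x := by
      simp only [Finset.mem_erase] at hαx
      exact swap_apply_of_ne_of_ne hαx.2.1 hαx.1
    rw [h1]
    simp only [Finset.mem_erase] at hx hαx ⊢
    tauto
  · constructor
    · rintro ⟨⟨h1, h2⟩, h3⟩
      exfalso
      have hxe : x ≠ e := fun h => h2 (h ▸ he)
      have hxs : x = s := by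
        by_contra h
        exact hx (by simp only [Finset.mem_erase]; exact ⟨h, hxe, h1⟩)
      subst hxs
      rw [matchings_notMem hα hx, swap_apply_right] at h3
      exact h3 he
    · rintro ⟨⟨h1, h2⟩, h3⟩
      exact absurd h1 hx

theorem dust_aux (htr : S_tr) (hma : S_match) (S : Finset V) (F : Perm V → ℝ) :
    ∀ (n : ℕ) (ρ : Perm V) (E D : Finset V), D.card = n → Disjoint E S → D ⊆ E →
      (∀ x, x ∉ E → x ∉ S → ρ x = x) → (∀ x ∈ D, ρ x = x) → Even E.card →
      avgM E (fun α => F (tr (α * ρ) S)) =
        avgM E (fun α => avgM ((E \ D).filter fun x => α x ∉ D)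
          fun β => F (tr (β * tr ρ (((E \ D).filter fun x => α x ∉ D) ∪ S)) S)) := by
  intro n
  induction n using Nat.strong_induction_on with
  | _ n ih =>
  intro ρ E D hn hES hDE hfix hD heven
  obtain ⟨hm1, hm2, hm3, -⟩ := hma
  rcases Finset.eq_empty_or_nonempty D with h0 | ⟨e, he⟩
  · subst h0
    have hne := hm1 V E heven
    have h4 := (htr V).2.2.2.1
    have : ∀ α : Perm V, ((E \ (∅ : Finset V)).filter fun x => α x ∉ (∅ : Finset V)) = E := by
      intro α; ext x; simp
    simp only [this]
    rw [avgM_const hne]
    apply avgM_congr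
    intro α hα
    rw [h4 ρ (E ∪ S)]
    intro x hx
    rw [Finset.mem_union, not_or] at hx
    exact hfix x hx.1 hx.2
  · have heE : e ∈ E := hDE he
    rw [hm3 V E e _ heven heE, hm3 V E e _ heven heE]
    congr 1
    apply Finset.sum_congr rfl
    intro s hs
    have hsE : s ∈ E := (Finset.mem_erase.1 hs).2
    have hse : s ≠ e := (Finset.mem_erase.1 hs).1
    have hsS : s ∉ S := fun h => (Finset.disjoint_left.1 hES) hsE h
    have hlt : ((D.erase e).erase s).card < n := by
      rw [← hn]
      apply lt_of_le_of_lt (Finset.card_le_card (Finset.erase_subset _ _))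
      exact Finset.card_lt_card (Finset.erase_ssubset he)
    have hcard : Even ((E.erase e).erase s).card := by
      rw [Finset.card_erase_of_mem hs, Finset.card_erase_of_mem heE]
      have h2 : 2 ≤ E.card := by
        have : ({e, s} : Finset V) ⊆ E := by
          intro x hx; simp only [Finset.mem_insert, Finset.mem_singleton] at hx
          rcases hx with h | h <;> simpa [h]
        calc 2 = ({e, s} : Finset V).card := (Finset.card_pair (Ne.symm hse)).symm
          _ ≤ _ := Finset.card_le_card this
      obtain ⟨k, hk⟩ := heven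
      exact ⟨k - 1, by omega⟩
    have key := ih _ hlt (rem ρ s) ((E.erase e).erase s) ((D.erase e).erase s) rfl
      (Finset.disjoint_of_subset_left
        ((Finset.erase_subset _ _).trans (Finset.erase_subset _ _)) hES)
      (Finset.erase_subset_erase _ (Finset.erase_subset_erase _ hDE))
      (by
        intro x hx hxS
        simp only [Finset.mem_erase, not_and_or, not_not] at hx
        rcases hx with h | h | h
        · subst h; exact rem_self _ _
        · subst h; exact rem_fix (hD _ he)
        · exact rem_fix (hfix x h hxS))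
      (by
        intro x hx
        simp only [Finset.mem_erase] at hx
        exact rem_fix (hD x hx.2.2)) hcard
    calc avgM ((E.erase e).erase s) (fun α => F (tr (swap e s * α * ρ) S))
        = avgM ((E.erase e).erase s) (fun α => F (tr (α * rem ρ s) S)) := by
          apply avgM_congr
          intro α hα
          rw [step_tr htr ρ E S hES hfix heE hs (hD e he) hα]
      _ = _ := key
      _ = _ := by
          apply avgM_congr
          intro α hα
          rw [E1_step E D he hs hα]
          apply avgM_congr
          intro β hβ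
          rw [tr_rem htr]
          intro h
          rw [Finset.mem_union] at h
          rcases h with h | h
          · simp at h
          · exact hsS h

end

theorem dust (htr : S_tr) (hma : S_match) : S_dust := by
  intro V _ _ ρ E S D F hES hDE hfix hD heven
  exact ⟨dust_aux htr hma S F _ ρ E D rfl hES hDE hfix hD heven,
    fun α hα => even_card_E1 hα⟩

end Pool.Agent.W588.PD

namespace Pool.Agent.W588.PD.Dust

open Pool.Agent.W805.PD

/-- PD-DU. -/
theorem main (htr : S_tr) (hma : S_match) : S_dust := Pool.Agent.W588.PD.dust htr hma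

end Pool.Agent.W588.PD.Dust
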